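import Mathlib

/-!
PMMS allocations when all agents but one have two-way fair share at most 1 of the whole item set.
-/

namespace Pool.Agent.Results.MP_a38173_lc.AllButOneShareOne

open Finset

set_option linter.unusedSectionVars false

variable {ι M : Type*} [Fintype ι] [DecidableEq ι] [Fintype M] [DecidableEq M]

/-- The bundles `X i` are pairwise disjoint and cover all items. -/
def IsAllocation (X : ι → Finset M) : Prop :=
  (∀ i j, i ≠ j → Disjoint (X i) (X j)) ∧ ∀ g, ∃ i, g ∈ X i

/-- The two-way fair share: the maximum of `min (v A) (v (S \ A))` over all `A ⊆ S`. -/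
noncomputable def fairShare (v : Finset M → ℝ) (S : Finset M) : ℝ :=
  S.powerset.sup' ⟨∅, empty_mem_powerset S⟩ fun A => min (v A) (v (S \ A))

/-- Every agent has at least the two-way fair share of the own bundle joined with any other. -/
def IsPMMS (v : ι → Finset M → ℝ) (X : ι → Finset M) : Prop :=
  ∀ i j, i ≠ j → fairShare (v i) (X i ∪ X j) ≤ v i (X i)

/-- For any two partitions of a set into two parts, the better part of the second is worth at
least the worse part of the first. -/
def MMSFeasible (v : Finset M → ℝ) : Prop :=
  ∀ A₁ A₂ B₁ B₂ : Finset M, Disjoint A₁ A₂ → Disjoint B₁ B₂ → A₁ ∪ A₂ = B₁ ∪ B₂ →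
    min (v A₁) (v A₂) ≤ max (v B₁) (v B₂)

/-- `S` can be cut into two parts of value `1`. -/
def Split (w : Finset M → ℝ) (S : Finset M) : Prop :=
  ∃ A B, Disjoint A B ∧ A ∪ B = S ∧ w A = 1 ∧ w B = 1

lemma fairShare_le (v : Finset M → ℝ) (S : Finset M) (x : ℝ)
    (h : ∀ A B, Disjoint A B → A ∪ B = S → min (v A) (v B) ≤ x) : fairShare v S ≤ x := by
  refine Finset.sup'_le _ _ fun A hA => h A (S \ A) disjoint_sdiff ?_
  exact union_sdiff_of_subset (mem_powerset.1 hA)

/-- cut the union of two bundles anew -/
def recut (Y : ι → Finset M) (p q : ι) (C D : Finset M) : ι → Finset M :=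
  Function.update (Function.update Y p C) q D

lemma recut_p {Y : ι → Finset M} {p q : ι} {C D : Finset M} (h : p ≠ q) :
    recut Y p q C D p = C := by simp [recut, h]

lemma recut_q {Y : ι → Finset M} {p q : ι} {C D : Finset M} :
    recut Y p q C D q = D := by simp [recut]

lemma recut_o {Y : ι → Finset M} {p q i : ι} {C D : Finset M} (h : i ≠ p) (h' : i ≠ q) :
    recut Y p q C D i = Y i := by simp [recut, h, h']

lemma recut_alloc {Y : ι → Finset M} (hY : IsAllocation Y) {p q : ι} {C D : Finset M}
    (hpq : p ≠ q) (hd : Disjoint C D) (hu : C ∪ D = Y p ∪ Y q) :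
    IsAllocation (recut Y p q C D) := by
  have hC : C ⊆ Y p ∪ Y q := hu ▸ subset_union_left
  have hD : D ⊆ Y p ∪ Y q := hu ▸ subset_union_right
  have hout : ∀ i, i ≠ p → i ≠ q → Disjoint (Y i) (Y p ∪ Y q) := by
    intro i hip hiq
    exact disjoint_union_right.2 ⟨hY.1 i p hip, hY.1 i q hiq⟩
  refine ⟨?_, ?_⟩
  · intro i j hij
    by_cases hip : i = p
    · subst hip
      rw [recut_p hpq]
      by_cases hjq : j = q
      · subst hjq; rw [recut_q]; exact hd
      · rw [recut_o (Ne.symm hij) hjq]
        exact ((hout j (Ne.symm hij) hjq).mono_right hC).symm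
    · by_cases hiq : i = q
      · subst hiq
        rw [recut_q]
        by_cases hjp : j = p
        · subst hjp; rw [recut_p hpq]; exact hd.symm
        · rw [recut_o hjp (Ne.symm hij)]
          exact ((hout j hjp (Ne.symm hij)).mono_right hD).symm
      · rw [recut_o hip hiq]
        by_cases hjp : j = p
        · subst hjp; rw [recut_p hpq]; exact (hout i hip hiq).mono_right hC
        · by_cases hjq : j = q
          · subst hjq; rw [recut_q]; exact (hout i hip hiq).mono_right hD
          · rw [recut_o hjp hjq]; exact hY.1 i j hij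
  · intro g
    obtain ⟨i, hi⟩ := hY.2 g
    by_cases h : i = p ∨ i = q
    · have : g ∈ C ∪ D := by
        rw [hu, mem_union]
        rcases h with h | h
        · exact Or.inl (h ▸ hi)
        · exact Or.inr (h ▸ hi)
      rcases mem_union.1 this with h | h
      · exact ⟨p, by rw [recut_p hpq]; exact h⟩
      · exact ⟨q, by rw [recut_q]; exact h⟩
    · push Not at h
      exact ⟨i, by rw [recut_o h.1 h.2]; exact hi⟩

lemma perm_alloc {X : ι → Finset M} (hX : IsAllocation X) (π : Equiv.Perm ι) :
    IsAllocation (fun i => X (π i)) := by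
  refine ⟨fun i j hij => hX.1 _ _ fun h => hij (π.injective h), fun g => ?_⟩
  obtain ⟨i, hi⟩ := hX.2 g
  exact ⟨π.symm i, by simpa using hi⟩

/-- the happy ones among the agents other than `a` -/
noncomputable def H (v : ι → Finset M → ℝ) (a : ι) (X : ι → Finset M) : Finset ι :=
  by classical exact univ.filter fun i => i ≠ a ∧ v i (X i) = 1

/-- the agents whose bundle looks better to `a` than the own one -/
noncomputable def E (v : ι → Finset M → ℝ) (a : ι) (X : ι → Finset M) : Finset ι :=
  by classical exact univ.filter fun i => i ≠ a ∧ v a (X a) < v a (X i)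

lemma mem_H {v : ι → Finset M → ℝ} {a : ι} {X : ι → Finset M} {i : ι} :
    i ∈ H v a X ↔ i ≠ a ∧ v i (X i) = 1 := by
  classical
  simp [H]

lemma mem_E {v : ι → Finset M → ℝ} {a : ι} {X : ι → Finset M} {i : ι} :
    i ∈ E v a X ↔ i ≠ a ∧ v a (X a) < v a (X i) := by
  classical
  simp [E]

lemma exists_best (v : ι → Finset M → ℝ) (a : ι) :
    ∃ X : ι → Finset M, IsAllocation X ∧
      (∀ Y, IsAllocation Y → (H v a Y).card ≤ (H v a X).card) ∧
      (∀ Y, IsAllocation Y → (H v a X).card ≤ (H v a Y).card → v a (Y a) ≤ v a (X a)) ∧
      (∀ Y, IsAllocation Y → (H v a X).card ≤ (H v a Y).card → v a (X a) ≤ v a (Y a) →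
        (E v a X).card ≤ (E v a Y).card) ∧
      (∀ Y, IsAllocation Y → (H v a X).card ≤ (H v a Y).card → v a (X a) ≤ v a (Y a) →
        (E v a Y).card ≤ (E v a X).card → (Y a).card ≤ (X a).card) := by
  classical
  have hne : ((univ : Finset (ι → Finset M)).filter IsAllocation).Nonempty := by
    refine ⟨fun i => if i = a then univ else ∅, ?_⟩
    rw [mem_filter]
    refine ⟨mem_univ _, ?_, ?_⟩
    · intro i j hij
      by_cases hi : i = a
      · have hj : j ≠ a := fun h => hij (hi.trans h.symm)
        simp [hj]
      · simp [hi]
    · intro g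
      exact ⟨a, by simp⟩
  obtain ⟨X, hX, hmax⟩ := Finset.exists_max_image _ (fun X : ι → Finset M =>
    (toLex ((H v a X).card, toLex (v a (X a),
      toLex (OrderDual.toDual (E v a X).card, (X a).card))) :
        ℕ ×ₗ (ℝ ×ₗ (ℕᵒᵈ ×ₗ ℕ)))) hne
  have hm : ∀ Y, IsAllocation Y → _ := fun Y hY => hmax Y (mem_filter.2 ⟨mem_univ _, hY⟩)
  simp only [Prod.Lex.toLex_le_toLex, OrderDual.toDual_lt_toDual] at hm
  refine ⟨X, (mem_filter.1 hX).2, ?_, ?_, ?_, ?_⟩
  · intro Y hY
    rcases hm Y hY with h | h
    · exact h.le
    · exact h.1.le
  · intro Y hY h1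
    rcases hm Y hY with h | ⟨_, h | ⟨h, _⟩⟩
    · exact absurd h (not_lt.2 h1)
    · exact h.le
    · exact h.le
  · intro Y hY h1 h2
    rcases hm Y hY with h | ⟨_, h | ⟨_, h | ⟨h, _⟩⟩⟩
    · exact absurd h (not_lt.2 h1)
    · exact absurd h (not_lt.2 h2)
    · exact h.le
    · exact (OrderDual.toDual.injective h).ge
  · intro Y hY h1 h2 h3
    rcases hm Y hY with h | ⟨_, h | ⟨_, h | ⟨_, h⟩⟩⟩
    · exact absurd h (not_lt.2 h1)
    · exact absurd h (not_lt.2 h2)
    · exact absurd h (not_lt.2 h3)
    · exact h


lemma one_mono {v : ι → Finset M → ℝ} {a : ι} (hm : ∀ i S T, S ⊆ T → v i S ≤ v i T)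
    (h01 : ∀ i, i ≠ a → ∀ S, v i S = 0 ∨ v i S = 1) {i : ι} (hi : i ≠ a) {S T : Finset M}
    (hS : v i S = 1) (hST : S ⊆ T) : v i T = 1 := by
  rcases h01 i hi T with h | h
  · have := hm i S T hST
    linarith
  · exact h

lemma split_mms {w : Finset M → ℝ} (hf : MMSFeasible w) (h01 : ∀ S, w S = 0 ∨ w S = 1)
    {S C D : Finset M} (hs : Split w S) (hd : Disjoint C D) (hu : C ∪ D = S) :
    w C = 1 ∨ w D = 1 := by
  obtain ⟨A, B, h1, h2, h3, h4⟩ := hs
  have := hf A B C D h1 hd (h2.trans hu.symm)
  rw [h3, h4, min_self] at this
  rcases h01 C with h | h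
  · rcases h01 D with h' | h'
    · rw [h, h', max_self] at this
      linarith
    · exact Or.inr h'
  · exact Or.inl h

lemma pmms_of {v : ι → Finset M → ℝ} {a : ι} (hf : ∀ i, MMSFeasible (v i))
    (h01 : ∀ i, i ≠ a → ∀ S, v i S = 0 ∨ v i S = 1) {Y : ι → Finset M} (hY : IsAllocation Y)
    (ha : ∀ j, v a (Y j) ≤ v a (Y a))
    (ho : ∀ i, i ≠ a → v i (Y i) = 1 ∨ ∀ j, j ≠ i → ¬ Split (v i) (Y i ∪ Y j)) :
    IsPMMS v Y := by
  intro i j hij
  apply fairShare_le
  intro A B hd hu
  by_cases hi : i = a
  · subst hi
    have := hf i A B (Y i) (Y j) hd (hY.1 i j hij) hu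
    rwa [max_eq_left (ha j)] at this
  · rcases ho i hi with h | h
    · rw [h]
      rcases h01 i hi A with h' | h'
      · exact (min_le_left _ _).trans (by rw [h']; norm_num)
      · exact (min_le_left _ _).trans h'.le
    · have hpos : 0 ≤ v i (Y i) := by
        rcases h01 i hi (Y i) with h' | h'
        · rw [h']
        · rw [h']; norm_num
      rcases h01 i hi A with h' | h'
      · exact (min_le_left _ _).trans (by rw [h']; exact hpos)
      · rcases h01 i hi B with h'' | h''
        · exact (min_le_right _ _).trans (by rw [h'']; exact hpos)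
        · exact absurd ⟨A, B, hd, hu, h', h''⟩ (h j (Ne.symm hij))

lemma unhappy_empty {v : ι → Finset M → ℝ} {a : ι} (hm : ∀ i S T, S ⊆ T → v i S ≤ v i T)
    {X : ι → Finset M} (hX : IsAllocation X)
    (hb4 : ∀ Y, IsAllocation Y → (H v a X).card ≤ (H v a Y).card → v a (X a) ≤ v a (Y a) →
        (E v a Y).card ≤ (E v a X).card → (Y a).card ≤ (X a).card)
    {u : ι} (hua : u ≠ a) (hu : u ∉ H v a X) : X u = ∅ := by
  by_contra hne
  have hun : (∅ : Finset M) ∪ (X u ∪ X a) = X u ∪ X a := by simp
  have hY := recut_alloc hX hua (disjoint_empty_left (X u ∪ X a)) hun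
  have h1 : H v a X ⊆ H v a (recut X u a ∅ (X u ∪ X a)) := by
    intro i hi
    have hi' := mem_H.1 hi
    rw [mem_H, recut_o (fun h : i = u => hu (h ▸ hi)) hi'.1]
    exact hi'
  have h2 : v a (X a) ≤ v a (recut X u a ∅ (X u ∪ X a) a) := by
    rw [recut_q]
    exact hm _ _ _ subset_union_right
  have h3 : E v a (recut X u a ∅ (X u ∪ X a)) ⊆ E v a X := by
    intro i hi
    have hi' := mem_E.1 hi
    by_cases hiu : i = u
    · subst hiu
      have := hi'.2
      rw [recut_p hua] at this
      exact absurd (hm a _ _ (empty_subset _)) (not_le.2 this)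
    · rw [recut_o hiu hi'.1] at hi'
      exact mem_E.2 ⟨hi'.1, lt_of_le_of_lt h2 hi'.2⟩
  have h4 := hb4 _ hY (card_le_card h1) h2 (card_le_card h3)
  rw [recut_q, card_union_of_disjoint (hX.1 u a hua)] at h4
  have := Finset.card_pos.2 (nonempty_iff_ne_empty.2 hne)
  omega

lemma unhappy_split {v : ι → Finset M → ℝ} {a : ι} (hm : ∀ i S T, S ⊆ T → v i S ≤ v i T)
    (h0 : ∀ i, v i ∅ = 0)
    {X : ι → Finset M} (hX : IsAllocation X)
    (hb1 : ∀ Y, IsAllocation Y → (H v a Y).card ≤ (H v a X).card)
    (hb2 : ∀ Y, IsAllocation Y → (H v a X).card ≤ (H v a Y).card → v a (Y a) ≤ v a (X a))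
    (hb4 : ∀ Y, IsAllocation Y → (H v a X).card ≤ (H v a Y).card → v a (X a) ≤ v a (Y a) →
        (E v a Y).card ≤ (E v a X).card → (Y a).card ≤ (X a).card)
    {u l : ι} (hua : u ≠ a) (hu : u ∉ H v a X) (hlu : l ≠ u) : ¬ Split (v u) (X l) := by
  rintro ⟨A, B, hd, hun, hA, hB⟩
  have hXu : X u = ∅ := unhappy_empty hm hX hb4 hua hu
  by_cases hla : l = a
  · subst hla
    have hY := recut_alloc hX hua hd (by rw [hun, hXu, empty_union] : A ∪ B = X u ∪ X l)
    have h1 : insert u (H v l X) ⊆ H v l (recut X u l A B) := by
      intro i hi
      rcases mem_insert.1 hi with h | h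
      · subst h
        rw [mem_H, recut_p hua]
        exact ⟨hua, hA⟩
      · have hi' := mem_H.1 h
        rw [mem_H, recut_o (fun h' : i = u => hu (h' ▸ h)) hi'.1]
        exact hi'
    have h2 := card_le_card h1
    rw [card_insert_of_notMem hu] at h2
    have := hb1 _ hY
    omega
  · by_cases hl : l ∈ H v a X
    · have hY1 := recut_alloc hX (Ne.symm hlu) hd
        (by rw [hun, hXu, empty_union] : A ∪ B = X u ∪ X l)
      set Y1 := recut X u l A B with hY1d
      have e1 : Y1 l = B := recut_q
      have e2 : Y1 a = X a := recut_o (Ne.symm hua) (Ne.symm hla)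
      have e3 : Y1 u = A := recut_p (Ne.symm hlu)
      have hY := recut_alloc hY1 hla (disjoint_empty_left (Y1 l ∪ Y1 a)) (empty_union _)
      set Y := recut Y1 l a ∅ (Y1 l ∪ Y1 a) with hYd
      have f1 : Y l = ∅ := recut_p hla
      have f2 : Y a = B ∪ X a := by rw [hYd, recut_q, e1, e2]
      have f3 : Y u = A := by rw [hYd, recut_o (Ne.symm hlu) hua, e3]
      have f4 : ∀ i, i ≠ u → i ≠ l → i ≠ a → Y i = X i := by
        intro i h1 h2 h3
        rw [hYd, recut_o h2 h3, hY1d, recut_o h1 h2]
      have h1 : insert u ((H v a X).erase l) ⊆ H v a Y := by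
        intro i hi
        rcases mem_insert.1 hi with h | h
        · subst h
          rw [mem_H, f3]
          exact ⟨hua, hA⟩
        · have h' := mem_erase.1 h
          have hi' := mem_H.1 h'.2
          rw [mem_H, f4 i (fun h'' => hu (h'' ▸ h'.2)) h'.1 hi'.1]
          exact hi'
      have h2 := card_le_card h1
      rw [card_insert_of_notMem (fun h => hu (mem_erase.1 h).2), card_erase_of_mem hl] at h2
      have hpos := Finset.card_pos.2 ⟨l, hl⟩
      have h3 : (H v a X).card ≤ (H v a Y).card := by omega
      have h4 : v a (X a) ≤ v a (Y a) := by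
        rw [f2]
        exact hm _ _ _ subset_union_right
      have hA' : A ⊆ X l := hun ▸ subset_union_left
      have hB' : B ⊆ X l := hun ▸ subset_union_right
      have key : ∀ i ∈ E v a Y, i ≠ u → i ∈ E v a X ∧ i ≠ l := by
        intro i hi hiu
        have hi' := mem_E.1 hi
        have hil : i ≠ l := by
          intro h
          subst h
          have := hi'.2
          rw [f1] at this
          exact absurd (hm a _ _ (empty_subset _)) (not_le.2 this)
        rw [f4 i hiu hil hi'.1] at hi'
        exact ⟨mem_E.2 ⟨hi'.1, lt_of_le_of_lt h4 hi'.2⟩, hil⟩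
      have h5 : (E v a Y).card ≤ (E v a X).card := by
        by_cases huE : u ∈ E v a Y
        · have hlE : l ∈ E v a X := by
            have := (mem_E.1 huE).2
            rw [f3] at this
            exact mem_E.2 ⟨hla, lt_of_le_of_lt h4 (lt_of_lt_of_le this (hm _ _ _ hA'))⟩
          have hsub : E v a Y ⊆ insert u ((E v a X).erase l) := by
            intro i hi
            by_cases hiu : i = u
            · subst hiu; exact mem_insert_self _ _
            · have := key i hi hiu
              exact mem_insert_of_mem (mem_erase.2 ⟨this.2, this.1⟩)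
          have := (card_le_card hsub).trans (card_insert_le _ _)
          rw [card_erase_of_mem hlE] at this
          have hpos := Finset.card_pos.2 ⟨l, hlE⟩
          omega
        · exact card_le_card fun i hi => (key i hi (fun h => huE (h ▸ hi))).1
      have h6 := hb4 _ hY h3 h4 h5
      have hdis : Disjoint B (X a) := (hX.1 l a hla).mono_left hB'
      rw [f2, card_union_of_disjoint hdis] at h6
      have hBne : B.Nonempty := by
        rw [nonempty_iff_ne_empty]
        intro h
        rw [h, h0] at hB
        norm_num at hB
      have := hBne.card_pos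
      omega
    · have hXl : X l = ∅ := unhappy_empty hm hX hb4 hla hl
      have : A = ∅ := by
        have hA' : A ⊆ X l := hun ▸ subset_union_left
        rw [hXl] at hA'
        exact subset_empty.1 hA'
      rw [this, h0] at hA
      norm_num at hA


/-- **Main theorem.** Agent `a` has any monotone MMS-feasible valuation, every other agent has a
monotone MMS-feasible valuation with the two values `0` and `1`. Then some allocation of all items
is PMMS. -/
theorem exists_pmms (v : ι → Finset M → ℝ) (a : ι)
    (h0 : ∀ i, v i ∅ = 0)
    (hm : ∀ i S T, S ⊆ T → v i S ≤ v i T)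
    (hf : ∀ i, MMSFeasible (v i))
    (h01 : ∀ i, i ≠ a → ∀ S, v i S = 0 ∨ v i S = 1) :
    ∃ X : ι → Finset M, IsAllocation X ∧ IsPMMS v X := by
  classical
  obtain ⟨X, hX, hb1, hb2, hb3, hb4⟩ := exists_best v a
  have hU : ∀ u, u ≠ a → u ∉ H v a X → X u = ∅ := fun u hua hu =>
    unhappy_empty hm hX hb4 hua hu
  have hS : ∀ u l, u ≠ a → u ∉ H v a X → l ≠ u → ¬ Split (v u) (X l) := fun u l hua hu hl =>
    unhappy_split hm h0 hX hb1 hb2 hb4 hua hu hl
  obtain ⟨b, -, hbmax⟩ := Finset.exists_max_image univ (fun i => v a (X i)) ⟨a, mem_univ a⟩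
  have hbmax' : ∀ j, v a (X j) ≤ v a (X b) := fun j => hbmax j (mem_univ j)
  by_cases hba : v a (X b) ≤ v a (X a)
  · refine ⟨X, hX, pmms_of hf h01 hX (fun j => (hbmax' j).trans hba) ?_⟩
    intro i hia
    by_cases hi : i ∈ H v a X
    · exact Or.inl (mem_H.1 hi).2
    · refine Or.inr fun j hj => ?_
      rw [hU i hia hi, empty_union]
      exact hS i j hia hi hj
  · push Not at hba
    have hbne : b ≠ a := by
      intro h
      rw [h] at hba
      exact lt_irrefl _ hba
    have hbH : b ∈ H v a X := by
      by_contra h
      rw [hU b hbne h] at hba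
      exact absurd (hm a _ _ (empty_subset (X a))) (not_le.2 hba)
    have hbE : b ∈ E v a X := mem_E.2 ⟨hbne, hba⟩
    -- the permutations of the bundles
    let P : Equiv.Perm ι → Prop := fun π => π a = b ∧ (∀ u, u ∉ H v a X → u ≠ a → π u = u) ∧
      ∀ h ∈ H v a X, π h ≠ a → v h (X (π h)) = 1
    let T : Equiv.Perm ι → Finset ι := fun π => univ.filter fun h =>
      h ∈ H v a X ∧ π h ≠ a ∧ Split (v h) (X a ∪ X (π h))
    have hPne : ((univ : Finset (Equiv.Perm ι)).filter P).Nonempty := by
      refine ⟨Equiv.swap a b, mem_filter.2 ⟨mem_univ _, Equiv.swap_apply_left a b, ?_, ?_⟩⟩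
      · intro u hu hua
        exact Equiv.swap_apply_of_ne_of_ne hua (fun h => hu (h ▸ hbH))
      · intro h hh hne
        have hha := (mem_H.1 hh).1
        by_cases hhb : h = b
        · subst hhb
          rw [Equiv.swap_apply_right] at hne
          exact absurd rfl hne
        · rw [Equiv.swap_apply_of_ne_of_ne hha hhb]
          exact (mem_H.1 hh).2
    obtain ⟨π, hπ, hπmax⟩ := Finset.exists_max_image _ (fun π => (T π).card) hPne
    obtain ⟨hπa, hπu, hπH⟩ := (mem_filter.1 hπ).2
    obtain ⟨c, hc⟩ : ∃ c, π c = a := ⟨π.symm a, by simp⟩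
    have hca : c ≠ a := by
      intro h
      rw [h, hπa] at hc
      exact hbne hc
    have hcH : c ∈ H v a X := by
      by_contra h
      exact hca ((hπu c h hca).symm.trans hc)
    have hne_c : ∀ i, i ≠ c → π i ≠ a := by
      intro i hi h
      exact hi (π.injective (h.trans hc.symm))
    have hYall := perm_alloc hX π
    set Y : ι → Finset M := fun i => X (π i) with hYd
    have hYa : Y a = X b := by simp [hYd, hπa]
    have hYc : Y c = X a := by simp [hYd, hc]
    -- the agent holding the old bundle of `a`
    have hK : v c (X a) = 1 ∨ ∀ l, l ≠ a → ¬ Split (v c) (X a ∪ X l) := by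
      by_contra hcon
      push Not at hcon
      obtain ⟨hc1, l, hla, hsp⟩ := hcon
      have hlH : l ∈ H v a X := by
        by_contra h
        rw [hU l hla h, union_empty] at hsp
        obtain ⟨A, B, -, hAB, hA, -⟩ := hsp
        exact hc1 (one_mono hm h01 hca hA (hAB ▸ subset_union_left))
      have hdis : Disjoint (X a) (X l) := hX.1 a l (Ne.symm hla)
      have hcl : v c (X l) = 1 := by
        rcases split_mms (hf c) (h01 c hca) hsp hdis rfl with h | h
        · exact absurd h hc1
        · exact h
      obtain ⟨h', hh'⟩ : ∃ h', π h' = l := ⟨π.symm l, by simp⟩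
      have hh'c : h' ≠ c := by
        intro h
        rw [h, hc] at hh'
        exact hla hh'.symm
      by_cases hh'a : h' = a
      · -- `c` cuts the old bundle of `a` with the favourite one of `a`
        have hlb : l = b := by rw [← hh', hh'a, hπa]
        subst hlb
        have main : ∀ A B, Disjoint A B → A ∪ B = X a ∪ X l → v c A = 1 → v a A ≤ v a B →
            False := by
          intro A B hd hun hA hle
          have hZ := recut_alloc hYall hca hd (by rw [hun]; show _ = Y c ∪ Y a; rw [hYc, hYa])
          set Z := recut (fun i => X (π i)) c a A B with hZd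
          have z1 : Z c = A := recut_p hca
          have z2 : Z a = B := recut_q
          have z3 : ∀ i, i ≠ c → i ≠ a → Z i = X (π i) := fun i h1 h2 => recut_o h1 h2
          have k1 : H v a X ⊆ H v a Z := by
            intro i hi
            have hi' := mem_H.1 hi
            by_cases hic : i = c
            · subst hic
              rw [mem_H, z1]
              exact ⟨hca, hA⟩
            · rw [mem_H, z3 i hic hi'.1]
              exact ⟨hi'.1, hπH i hi (hne_c i hic)⟩
          have k2 : v a (X a) ≤ v a (Z a) := by
            rw [z2]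
            have := hf a (X a) (X l) A B hdis hd hun.symm
            rwa [max_eq_right hle, min_eq_left hba.le] at this
          have k3 := hb3 _ hZ (card_le_card k1) k2
          have k4 : (E v a Z).image π ⊆ (E v a X).erase l := by
            intro j hj
            obtain ⟨i, hi, rfl⟩ := mem_image.1 hj
            have hi' := mem_E.1 hi
            have hic : i ≠ c := by
              intro h
              subst h
              have := hi'.2
              rw [z1, z2] at this
              exact absurd hle (not_le.2 this)
            rw [z3 i hic hi'.1] at hi'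
            refine mem_erase.2 ⟨?_, mem_E.2 ⟨hne_c i hic, lt_of_le_of_lt k2 hi'.2⟩⟩
            intro h
            exact hi'.1 (π.injective (h.trans hπa.symm))
          have k5 := card_le_card k4
          rw [card_image_of_injective _ π.injective, card_erase_of_mem hbE] at k5
          have := Finset.card_pos.2 ⟨l, hbE⟩
          omega
        obtain ⟨A, B, hd, hun, hA, hB⟩ := hsp
        rcases le_total (v a A) (v a B) with h | h
        · exact main A B hd hun hA h
        · exact main B A hd.symm (by rw [union_comm]; exact hun) hB h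
      · have hh'H : h' ∈ H v a X := by
          by_contra h
          have := hπu h' h hh'a
          rw [hh'] at this
          exact h (this ▸ hlH)
        have hYh' : Y h' = X l := by simp [hYd, hh']
        by_cases hsp' : Split (v h') (X a ∪ X l)
        · -- both can be served from the two bundles, `a` keeps its favourite
          have main : ∀ C D, Disjoint C D → C ∪ D = X a ∪ X l → v c C = 1 → v h' D = 1 →
              False := by
            intro C D hd hun hC hD
            have hZ := recut_alloc hYall (Ne.symm hh'c) hd
              (by rw [hun]; show _ = Y c ∪ Y h'; rw [hYc, hYh'])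
            set Z := recut (fun i => X (π i)) c h' C D with hZd
            have z1 : Z c = C := recut_p (Ne.symm hh'c)
            have z2 : Z h' = D := recut_q
            have z3 : ∀ i, i ≠ c → i ≠ h' → Z i = X (π i) := fun i h1 h2 => recut_o h1 h2
            have k1 : H v a X ⊆ H v a Z := by
              intro i hi
              have hi' := mem_H.1 hi
              by_cases hic : i = c
              · subst hic
                rw [mem_H, z1]
                exact ⟨hca, hC⟩
              · by_cases hih : i = h'
                · subst hih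
                  rw [mem_H, z2]
                  exact ⟨hh'a, hD⟩
                · rw [mem_H, z3 i hic hih]
                  exact ⟨hi'.1, hπH i hi (hne_c i hic)⟩
            have k2 := hb2 _ hZ (card_le_card k1)
            rw [z3 a (Ne.symm hca) (Ne.symm hh'a), hπa] at k2
            exact absurd k2 (not_le.2 hba)
          obtain ⟨A, B, hd, hun, hA, hB⟩ := hsp
          rcases split_mms (hf h') (h01 h' hh'a) hsp' hd hun with h | h
          · exact main B A hd.symm (by rw [union_comm]; exact hun) hB h
          · exact main A B hd hun hA h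
        · -- pass the old bundle of `a` on to `h'`
          have hP' : P ((Equiv.swap c h').trans π) := by
            refine ⟨?_, ?_, ?_⟩
            · simp only [Equiv.trans_apply]
              rw [Equiv.swap_apply_of_ne_of_ne (Ne.symm hca) (Ne.symm hh'a), hπa]
            · intro u hu hua
              simp only [Equiv.trans_apply]
              rw [Equiv.swap_apply_of_ne_of_ne (fun h : u = c => hu (h ▸ hcH))
                (fun h : u = h' => hu (h ▸ hh'H))]
              exact hπu u hu hua
            · intro h hh hne
              simp only [Equiv.trans_apply] at hne ⊢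
              by_cases hhc : h = c
              · subst hhc
                rw [Equiv.swap_apply_left, hh']
                exact hcl
              · by_cases hhh : h = h'
                · subst hhh
                  rw [Equiv.swap_apply_right] at hne
                  exact absurd hc hne
                · rw [Equiv.swap_apply_of_ne_of_ne hhc hhh] at hne ⊢
                  exact hπH h hh hne
          have hmax := hπmax _ (mem_filter.2 ⟨mem_univ _, hP'⟩)
          have hcT : c ∉ T π := by
            intro h
            exact (mem_filter.1 h).2.2.1 hc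
          have hsub : insert c (T π) ⊆ T ((Equiv.swap c h').trans π) := by
            intro i hi
            rcases mem_insert.1 hi with h | h
            · subst h
              refine mem_filter.2 ⟨mem_univ _, hcH, ?_, ?_⟩
              · simp only [Equiv.trans_apply]
                rw [Equiv.swap_apply_left, hh']
                exact hla
              · simp only [Equiv.trans_apply]
                rw [Equiv.swap_apply_left, hh']
                exact hsp
            · have h2 := (mem_filter.1 h).2
              have hic : i ≠ c := fun h3 => hcT (h3 ▸ h)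
              have hih : i ≠ h' := by
                intro h3
                rw [h3, hh'] at h2
                exact hsp' h2.2.2
              refine mem_filter.2 ⟨mem_univ _, h2.1, ?_, ?_⟩
              · simp only [Equiv.trans_apply]
                rw [Equiv.swap_apply_of_ne_of_ne hic hih]
                exact h2.2.1
              · simp only [Equiv.trans_apply]
                rw [Equiv.swap_apply_of_ne_of_ne hic hih]
                exact h2.2.2
          have h3 := card_le_card hsub
          rw [card_insert_of_notMem hcT] at h3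
          omega
    refine ⟨Y, hYall, pmms_of hf h01 hYall ?_ ?_⟩
    · intro j
      rw [hYa]
      exact hbmax' (π j)
    · intro i hia
      by_cases hi : i ∈ H v a X
      · by_cases hic : i = c
        · subst hic
          rw [hYc]
          rcases hK with h | h
          · exact Or.inl h
          · exact Or.inr fun j hj => h (π j) (hne_c j hj)
        · exact Or.inl (hπH i hi (hne_c i hic))
      · refine Or.inr fun j hj => ?_
        have hπi := hπu i hi hia
        have hYi : Y i = ∅ := by
          show X (π i) = ∅
          rw [hπi]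
          exact hU i hia hi
        rw [hYi, empty_union]
        refine hS i (π j) hia hi ?_
        intro h
        exact hj (π.injective (h.trans hπi.symm))

lemma le_fairShare (w : Finset M → ℝ) {A B S : Finset M} (hd : Disjoint A B)
    (hu : A ∪ B = S) : min (w A) (w B) ≤ fairShare w S := by
  have hA : A ∈ S.powerset := mem_powerset.2 (hu ▸ subset_union_left)
  have hB : S \ A = B := by
    rw [← hu, union_sdiff_left]
    exact sdiff_eq_self_of_disjoint hd.symm
  have := Finset.le_sup' (fun A => min (w A) (w (S \ A))) hA
  simp only [hB] at this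
  exact this

/-- One agent `a` has an arbitrary monotone MMS-feasible valuation. Every other agent has a
monotone MMS-feasible valuation whose values are natural numbers, with two-way fair share of the
whole item set at most `1`. Then there is a PMMS allocation of all items. -/
theorem result {ι M : Type*} [Fintype ι] [DecidableEq ι] [Fintype M] [DecidableEq M]
    (v : ι → Finset M → ℝ) (a : ι)
    (h0 : ∀ i, v i ∅ = 0)
    (hm : ∀ i S T, S ⊆ T → v i S ≤ v i T)
    (hf : ∀ i, MMSFeasible (v i))
    (hN : ∀ i, i ≠ a → ∀ S, ∃ n : ℕ, v i S = n)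
    (hs : ∀ i, i ≠ a → fairShare (v i) univ ≤ 1) :
    ∃ X : ι → Finset M, IsAllocation X ∧ IsPMMS v X := by
  classical
  let w : ι → Finset M → ℝ := fun i S => if i = a then v a S else min (v i S) 1
  have wa : ∀ S, w a S = v a S := fun S => if_pos rfl
  have wo : ∀ i, i ≠ a → ∀ S, w i S = min (v i S) 1 := fun i hi S => if_neg hi
  obtain ⟨X, hX, hP⟩ := exists_pmms w a
    (by
      intro i
      by_cases hi : i = a
      · subst hi; rw [wa]; exact h0 i
      · rw [wo i hi, h0 i]; norm_num)
    (by
      intro i S T hST
      by_cases hi : i = a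
      · subst hi; rw [wa, wa]; exact hm i S T hST
      · rw [wo i hi, wo i hi]; exact min_le_min_right 1 (hm i S T hST))
    (by
      intro i A₁ A₂ B₁ B₂ hA hB hu
      by_cases hi : i = a
      · subst hi; simp only [wa]; exact hf i A₁ A₂ B₁ B₂ hA hB hu
      · simp only [wo i hi]
        have h := hf i A₁ A₂ B₁ B₂ hA hB hu
        rcases max_choice (v i B₁) (v i B₂) with h' | h'
        · rw [h'] at h
          refine le_trans ?_ (le_max_left _ _)
          refine le_min ((le_trans ?_ h)) ?_
          · exact min_le_min (min_le_left _ _) (min_le_left _ _)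
          · exact (min_le_left _ _).trans (min_le_right _ _)
        · rw [h'] at h
          refine le_trans ?_ (le_max_right _ _)
          refine le_min ((le_trans ?_ h)) ?_
          · exact min_le_min (min_le_left _ _) (min_le_left _ _)
          · exact (min_le_left _ _).trans (min_le_right _ _))
    (by
      intro i hi S
      rw [wo i hi]
      obtain ⟨n, hn⟩ := hN i hi S
      rw [hn]
      rcases Nat.eq_zero_or_pos n with h | h
      · left; subst h; norm_num
      · right
        exact min_eq_right (by exact_mod_cast h))
  refine ⟨X, hX, ?_⟩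
  intro i j hij
  have hPij := hP i j hij
  by_cases hi : i = a
  · subst hi
    apply fairShare_le
    intro A B hd hu
    have := (le_fairShare (w i) hd hu).trans hPij
    rwa [wa, wa, wa] at this
  · apply fairShare_le
    intro A B hd hu
    have h1 := (le_fairShare (w i) hd hu).trans hPij
    rw [wo i hi, wo i hi, wo i hi] at h1
    have h2 : min (v i A) (v i B) ≤ 1 := by
      have h3 := le_fairShare (v i) (disjoint_sdiff (s := A) (t := univ))
        (union_sdiff_of_subset (subset_univ A))
      have h4 : v i B ≤ v i (univ \ A) := hm i _ _ fun g hg =>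
        mem_sdiff.2 ⟨mem_univ g, fun hgA => (Finset.disjoint_left.1 hd hgA) hg⟩
      exact (min_le_min_left _ h4).trans (h3.trans (hs i hi))
    have h5 : min (v i A) (v i B) ≤ min (min (v i A) 1) (min (v i B) 1) :=
      le_min (le_min (min_le_left _ _) h2) (le_min (min_le_right _ _) h2)
    exact h5.trans (h1.trans (min_le_left _ _))

end Pool.Agent.Results.MP_a38173_lc.AllButOneShareOne
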