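import Mathlib

/-!
Three agents with binary-marginal MMS-feasible valuations, one of whom has two-way fair share at
most 1 of the whole item set: a PMMS allocation exists.
-/

namespace Pool.Agent.Results.MP_a38173_lc.ThreeAgentsOneSmallShare

open Finset

set_option linter.unusedSectionVars false

variable {ι M : Type*} [Fintype ι] [DecidableEq ι] [Fintype M] [DecidableEq M]

/-- The bundles `X i` are pairwise disjoint and cover all items. -/
def IsAllocation (X : ι → Finset M) : Prop :=
  (∀ i j, i ≠ j → Disjoint (X i) (X j)) ∧ ∀ g, ∃ i, g ∈ X i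

/-- The two-way fair share: the maximum of `min (v A) (v (S \ A))` over all `A ⊆ S`. -/
noncomputable def fairShare (v : Finset M → ℝ) (S : Finset M) : ℝ :=
  S.powerset.sup' ⟨∅, empty_mem_powerset S⟩ fun A => min (v A) (v (S \ A))

/-- Every agent has at least the two-way fair share of the own bundle joined with any other. -/
def IsPMMS (v : ι → Finset M → ℝ) (X : ι → Finset M) : Prop :=
  ∀ i j, i ≠ j → fairShare (v i) (X i ∪ X j) ≤ v i (X i)

/-- For any two partitions of a set into two parts, the better part of the second is worth at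
least the worse part of the first. -/
def MMSFeasible (v : Finset M → ℝ) : Prop :=
  ∀ A₁ A₂ B₁ B₂ : Finset M, Disjoint A₁ A₂ → Disjoint B₁ B₂ → A₁ ∪ A₂ = B₁ ∪ B₂ →
    min (v A₁) (v A₂) ≤ max (v B₁) (v B₂)

/-- Adding an item raises the value by `0` or by `1`. -/
def BinaryMarginal (v : Finset M → ℝ) : Prop :=
  ∀ S g, v (insert g S) - v S = 0 ∨ v (insert g S) - v S = 1

lemma fairShare_le (v : Finset M → ℝ) (S : Finset M) (x : ℝ)
    (h : ∀ A B, Disjoint A B → A ∪ B = S → min (v A) (v B) ≤ x) : fairShare v S ≤ x := by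
  refine Finset.sup'_le _ _ fun A hA => h A (S \ A) disjoint_sdiff ?_
  exact union_sdiff_of_subset (mem_powerset.1 hA)

lemma le_fairShare (w : Finset M → ℝ) {A B S : Finset M} (hd : Disjoint A B)
    (hu : A ∪ B = S) : min (w A) (w B) ≤ fairShare w S := by
  have hA : A ∈ S.powerset := mem_powerset.2 (hu ▸ subset_union_left)
  have hB : S \ A = B := by
    rw [← hu, union_sdiff_left]
    exact sdiff_eq_self_of_disjoint hd.symm
  have := Finset.le_sup' (fun A => min (w A) (w (S \ A))) hA
  simp only [hB] at this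
  exact this

/-! ### natural-number valuations -/

/-- monotone and MMS-feasible -/
structure Nice (f : Finset M → ℕ) : Prop where
  mono : ∀ S T, S ⊆ T → f S ≤ f T
  mms : ∀ A₁ A₂ B₁ B₂ : Finset M, Disjoint A₁ A₂ → Disjoint B₁ B₂ → A₁ ∪ A₂ = B₁ ∪ B₂ →
    min (f A₁) (f A₂) ≤ max (f B₁) (f B₂)

/-- the bundle `X` has at least the fair share of `X ∪ Y` -/
def Ok (f : Finset M → ℕ) (X Y : Finset M) : Prop :=
  ∀ A B, Disjoint A B → A ∪ B = X ∪ Y → min (f A) (f B) ≤ f X

/-- a partition of all items into three bundles -/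
structure Part (A B C : Finset M) : Prop where
  ab : Disjoint A B
  ac : Disjoint A C
  bc : Disjoint B C
  all : A ∪ B ∪ C = univ

lemma Part.swap12 {A B C : Finset M} (h : Part A B C) : Part B A C :=
  ⟨h.ab.symm, h.bc, h.ac, by rw [← h.all, union_comm B A]⟩

lemma Part.swap23 {A B C : Finset M} (h : Part A B C) : Part A C B :=
  ⟨h.ac, h.ab, h.bc.symm, by rw [← h.all, union_assoc, union_comm C B, ← union_assoc]⟩

/-- replace two bundles by a new cut of their union -/
lemma Part.recut {A B C D E : Finset M} (h : Part A B C) (hd : Disjoint D E)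
    (hu : D ∪ E = A ∪ B) : Part D E C := by
  have hC : Disjoint (A ∪ B) C := disjoint_union_left.2 ⟨h.ac, h.bc⟩
  refine ⟨hd, ?_, ?_, by rw [hu, h.all]⟩
  · exact hC.mono_left (hu ▸ subset_union_left)
  · exact hC.mono_left (hu ▸ subset_union_right)

lemma ok_of_le {f : Finset M → ℕ} (hf : Nice f) {X Y : Finset M} (hd : Disjoint X Y)
    (h : f Y ≤ f X) : Ok f X Y := by
  intro A B hAB hu
  have := hf.mms A B X Y hAB hd hu
  rwa [max_eq_left h] at this

lemma ok_one {w : Finset M → ℕ} (hw : ∀ S, w S ≤ 1) {X Y : Finset M} (h : w X = 1) :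
    Ok w X Y := by
  intro A B _ _
  rw [h]
  exact (min_le_left _ _).trans (hw A)

lemma ok_empty {f : Finset M → ℕ} (hf : Nice f) (X : Finset M) : Ok f X ∅ := by
  intro A B _ hu
  rw [union_empty] at hu
  exact (min_le_left _ _).trans (hf.mono _ _ (hu ▸ subset_union_left))

/-- the three bundles, for `u`, `v` and `w` in this order, give everybody the fair shares -/
def Fair (u v w : Finset M → ℕ) (A B C : Finset M) : Prop :=
  Part A B C ∧ Ok u A B ∧ Ok u A C ∧ Ok v B A ∧ Ok v B C ∧ Ok w C A ∧ Ok w C B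

/-- some assignment of some partition is fair -/
def Sol (u v w : Finset M → ℕ) : Prop := ∃ A B C, Fair u v w A B C

/-- `S` can be cut into two parts of value `1` -/
def WS (w : Finset M → ℕ) (S : Finset M) : Prop :=
  ∃ A B, Disjoint A B ∧ A ∪ B = S ∧ w A = 1 ∧ w B = 1

lemma ok_zero {w : Finset M → ℕ} (hw : ∀ S, w S ≤ 1) {X Y : Finset M} (h : ¬ WS w (X ∪ Y)) :
    Ok w X Y := by
  intro A B hd hu
  by_contra hcon
  push Not at hcon
  have h1 := hw A
  have h2 := hw B
  have hA : w A = 1 := by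
    have := lt_of_lt_of_le hcon (min_le_left _ _)
    omega
  have hB : w B = 1 := by
    have := lt_of_lt_of_le hcon (min_le_right _ _)
    omega
  exact h ⟨A, B, hd, hu, hA, hB⟩

lemma exists_cut (f : Finset M → ℕ) (S : Finset M) :
    ∃ A B, Disjoint A B ∧ A ∪ B = S ∧
      ∀ C D, Disjoint C D → C ∪ D = S → min (f C) (f D) ≤ min (f A) (f B) := by
  obtain ⟨A, hA, hmax⟩ := Finset.exists_max_image S.powerset
    (fun A => min (f A) (f (S \ A))) ⟨∅, empty_mem_powerset S⟩
  refine ⟨A, S \ A, disjoint_sdiff, union_sdiff_of_subset (mem_powerset.1 hA), ?_⟩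
  intro C D hd hu
  have hC : C ∈ S.powerset := mem_powerset.2 (hu ▸ subset_union_left)
  have hD : S \ C = D := by
    rw [← hu, union_sdiff_left]
    exact sdiff_eq_self_of_disjoint hd.symm
  have := hmax C hC
  simp only [hD] at this
  exact this

/-- the whole item set cannot be split by `w` -/
lemma sol_of_not_ws {u v w : Finset M → ℕ} (hu : Nice u) (hv : Nice v) (hw : Nice w)
    (hw1 : ∀ S, w S ≤ 1) (h : ¬ WS w univ) : Sol u v w := by
  have hok : ∀ X Y, Ok w X Y := by
    intro X Y
    apply ok_zero hw1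
    rintro ⟨A, B, hd, -, hA, hB⟩
    apply h
    refine ⟨A, univ \ A, disjoint_sdiff, union_sdiff_of_subset (subset_univ A), hA, ?_⟩
    have : w B ≤ w (univ \ A) := hw.mono _ _ fun g hg =>
      mem_sdiff.2 ⟨mem_univ g, fun hgA => (Finset.disjoint_left.1 hd hgA) hg⟩
    have h2 := hw1 (univ \ A)
    omega
  obtain ⟨A, B, hd, hun, hmax⟩ := exists_cut u (univ : Finset M)
  have key : ∀ A B, Disjoint A B → A ∪ B = univ →
      (∀ C D, Disjoint C D → C ∪ D = univ → min (u C) (u D) ≤ u A) → v A ≤ v B →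
      Sol u v w := by
    intro A B hd hun h1 h2
    refine ⟨A, B, ∅, ⟨hd, disjoint_empty_right _, disjoint_empty_right _, by
      rw [union_empty]; exact hun⟩, ?_, ok_empty hu A, ok_of_le hv hd.symm h2, ok_empty hv B,
      hok _ _, hok _ _⟩
    intro C D hCD hCDu
    exact h1 C D hCD (hCDu.trans hun)
  rcases le_total (v A) (v B) with h | h
  · exact key A B hd hun (fun C D h1 h2 => (hmax C D h1 h2).trans (min_le_left _ _)) h
  · exact key B A hd.symm (by rw [union_comm]; exact hun)
      (fun C D h1 h2 => (hmax C D h1 h2).trans (min_le_right _ _)) h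

/-- some partition has two bundles that `u` values above every third bundle of a partition whose
two other bundles have value `1` for `w` -/
lemma sol_of_two {u v w : Finset M → ℕ} (hu : Nice u) (hv : Nice v) (hw : Nice w)
    (hw1 : ∀ S, w S ≤ 1) {K : ℕ}
    (hK : ∀ A B C, Part A B C → w A = 1 → w B = 1 → u C ≤ K)
    (hF : ∃ A B C : Finset M, Part A B C ∧ K < u A ∧ K < u B) : Sol u v w := by
  classical
  -- maximise the smaller of the two values
  obtain ⟨A, B, C, hP, hA, hB, hmax⟩ : ∃ A B C : Finset M, Part A B C ∧ K < u A ∧ K < u B ∧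
      ∀ A' B' C' : Finset M, Part A' B' C' → min (u A') (u B') ≤ min (u A) (u B) := by
    obtain ⟨A₀, B₀, C₀, h₀, hA₀, hB₀⟩ := hF
    have hne : ((univ : Finset (Finset M × Finset M × Finset M)).filter
        fun t => Part t.1 t.2.1 t.2.2).Nonempty := ⟨(A₀, B₀, C₀), by simpa using h₀⟩
    obtain ⟨⟨A, B, C⟩, ht, hmax⟩ := Finset.exists_max_image _
      (fun t : Finset M × Finset M × Finset M => min (u t.1) (u t.2.1)) hne
    have hP : Part A B C := (mem_filter.1 ht).2
    have h1 := hmax (A₀, B₀, C₀) (mem_filter.2 ⟨mem_univ _, h₀⟩)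
    have h2 : K < min (u A) (u B) := lt_of_lt_of_le (lt_min hA₀ hB₀) h1
    exact ⟨A, B, C, hP, lt_of_lt_of_le h2 (min_le_left _ _),
      lt_of_lt_of_le h2 (min_le_right _ _),
      fun A' B' C' h => hmax (A', B', C') (mem_filter.2 ⟨mem_univ _, h⟩)⟩
  -- `u` likes both
  have likes : ∀ A B C : Finset M, Part A B C →
      (∀ A' B' C' : Finset M, Part A' B' C' → min (u A') (u B') ≤ min (u A) (u B)) →
      Ok u A B ∧ Ok u A C := by
    intro A B C hP hmax
    constructor
    · intro D E hd hun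
      exact (hmax D E C (hP.recut hd hun)).trans (min_le_left _ _)
    · intro D E hd hun
      exact (hmax D E B (hP.swap23.recut hd hun)).trans (min_le_left _ _)
  have hlA := likes A B C hP hmax
  have hlB := likes B A C hP.swap12 (fun A' B' C' h => by
    rw [min_comm (u B) (u A)]; exact hmax A' B' C' h)
  -- `w` likes the third one
  have nAC : ¬ WS w (C ∪ A) := by
    rintro ⟨D, E, hd, hun, hD, hE⟩
    have := hK D E B (hP.swap23.swap12.recut hd hun) hD hE
    omega
  have nBC : ¬ WS w (C ∪ B) := by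
    rintro ⟨D, E, hd, hun, hD, hE⟩
    have := hK D E A (hP.swap12.swap23.swap12.recut hd hun) hD hE
    omega
  have hwCA : Ok w C A := ok_zero hw1 nAC
  have hwCB : Ok w C B := ok_zero hw1 nBC
  -- the favourite of `v`
  by_cases h1 : v B ≤ v A ∧ v C ≤ v A
  · exact ⟨B, A, C, hP.swap12, hlB.1, hlB.2, ok_of_le hv hP.ab h1.1, ok_of_le hv hP.ac h1.2,
      hwCB, hwCA⟩
  · by_cases h2 : v A ≤ v B ∧ v C ≤ v B
    · exact ⟨A, B, C, hP, hlA.1, hlA.2, ok_of_le hv hP.ab.symm h2.1, ok_of_le hv hP.bc h2.2,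
        hwCA, hwCB⟩
    · have h3 : v A ≤ v C ∧ v B ≤ v C := by
        by_contra h4
        have : ¬ (v B ≤ v A ∧ v C ≤ v A) := h1
        have : ¬ (v A ≤ v B ∧ v C ≤ v B) := h2
        omega
      -- `w` takes one of the two others
      by_cases hwA : w A = 1
      · exact ⟨B, C, A, hP.swap12.swap23, hlB.2, hlB.1, ok_of_le hv hP.bc.symm h3.2,
          ok_of_le hv hP.ac.symm h3.1, ok_one hw1 hwA, ok_one hw1 hwA⟩
      · by_cases hwB : w B = 1
        · exact ⟨A, C, B, hP.swap23, hlA.2, hlA.1, ok_of_le hv hP.ac.symm h3.1,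
            ok_of_le hv hP.bc.symm h3.2, ok_one hw1 hwB, ok_one hw1 hwB⟩
        · have nAB : ¬ WS w (A ∪ B) := by
            rintro ⟨D, E, hd, hun, hD, hE⟩
            have := hw.mms D E A B hd hP.ab hun
            have h5 := hw1 A
            have h6 := hw1 B
            rw [hD, hE] at this
            omega
          exact ⟨B, C, A, hP.swap12.swap23, hlB.2, hlB.1, ok_of_le hv hP.bc.symm h3.2,
            ok_of_le hv hP.ac.symm h3.1, ok_zero hw1 nAB,
            ok_zero hw1 (by rw [union_comm]; exact nAC)⟩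


/-- one more item raises the value by at most one -/
def Step (f : Finset M → ℕ) : Prop := ∀ S g, f (insert g S) ≤ f S + 1

/-- `w` is happy with `A` and with `B`, the two others have their fair shares with `C` -/
structure Mid (u v w : Finset M → ℕ) (A B C : Finset M) : Prop where
  part : Part A B C
  wA : w A = 1
  wB : w B = 1
  uA : Ok u C A
  uB : Ok u C B
  vA : Ok v C A
  vB : Ok v C B

lemma fav {f : Finset M → ℕ} (hf : Nice f) {A B C : Finset M} (hP : Part A B C)
    (h1 : ¬ (Ok f A B ∧ Ok f A C)) (h2 : ¬ (Ok f B A ∧ Ok f B C)) : f A < f C ∧ f B < f C := by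
  have k1 : ¬ (f B ≤ f A ∧ f C ≤ f A) := fun h =>
    h1 ⟨ok_of_le hf hP.ab h.1, ok_of_le hf hP.ac h.2⟩
  have k2 : ¬ (f A ≤ f B ∧ f C ≤ f B) := fun h =>
    h2 ⟨ok_of_le hf hP.ab.symm h.1, ok_of_le hf hP.bc h.2⟩
  omega

/-- shrink the third bundle -/
lemma sol_of_mid {u v w : Finset M → ℕ} (hu : Nice u) (hv : Nice v) (hw : Nice w)
    (hus : Step u) (hvs : Step v)
    (hw1 : ∀ S, w S ≤ 1) (hM : ∃ A B C : Finset M, Mid u v w A B C) : Sol u v w := by
  classical
  obtain ⟨A, B, C, hm, hmin⟩ : ∃ A B C : Finset M, Mid u v w A B C ∧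
      ∀ A' B' C' : Finset M, Mid u v w A' B' C' → C.card ≤ C'.card := by
    obtain ⟨A₀, B₀, C₀, h₀⟩ := hM
    have hne : ((univ : Finset (Finset M × Finset M × Finset M)).filter
        fun t => Mid u v w t.1 t.2.1 t.2.2).Nonempty := ⟨(A₀, B₀, C₀), by simpa using h₀⟩
    obtain ⟨⟨A, B, C⟩, ht, hmin⟩ := Finset.exists_min_image _
      (fun t : Finset M × Finset M × Finset M => t.2.2.card) hne
    exact ⟨A, B, C, (mem_filter.1 ht).2,
      fun A' B' C' h => hmin (A', B', C') (mem_filter.2 ⟨mem_univ _, h⟩)⟩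
  have hP := hm.part
  have hPCAB : Part C A B := hP.swap23.swap12
  have hPCBA : Part C B A := hP.swap12.swap23.swap12
  by_cases a1 : Ok v A B ∧ Ok v A C
  · exact ⟨C, A, B, hPCAB, hm.uA, hm.uB, a1.2, a1.1, ok_one hw1 hm.wB, ok_one hw1 hm.wB⟩
  by_cases a2 : Ok v B A ∧ Ok v B C
  · exact ⟨C, B, A, hPCBA, hm.uB, hm.uA, a2.2, a2.1, ok_one hw1 hm.wA, ok_one hw1 hm.wA⟩
  by_cases a3 : Ok u A B ∧ Ok u A C
  · exact ⟨A, C, B, hP.swap23, a3.2, a3.1, hm.vA, hm.vB, ok_one hw1 hm.wB, ok_one hw1 hm.wB⟩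
  by_cases a4 : Ok u B A ∧ Ok u B C
  · exact ⟨B, C, A, hP.swap12.swap23, a4.2, a4.1, hm.vB, hm.vA, ok_one hw1 hm.wA,
      ok_one hw1 hm.wA⟩
  obtain ⟨fv1, fv2⟩ := fav hv hP a1 a2
  obtain ⟨fu1, fu2⟩ := fav hu hP a3 a4
  have hCne : C.Nonempty := by
    rw [nonempty_iff_ne_empty]
    intro h
    rw [h] at fu1
    exact absurd (hu.mono ∅ A (empty_subset A)) (not_le.2 fu1)
  obtain ⟨g, hg⟩ := hCne
  -- the item `g` moves from the third bundle to the first
  have hgA : g ∉ A := fun h => (Finset.disjoint_left.1 hP.ac h) hg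
  have hgB : g ∉ B := fun h => (Finset.disjoint_left.1 hP.bc h) hg
  have hun : insert g A ∪ C.erase g = A ∪ C := by
    ext x
    simp only [mem_union, mem_insert, mem_erase]
    by_cases hx : x = g
    · subst hx; simp [hg]
    · simp [hx]
  have hdis : Disjoint (insert g A) (C.erase g) := by
    rw [disjoint_insert_left]
    exact ⟨notMem_erase g C, hP.ac.mono_right (erase_subset g C)⟩
  have hP' : Part (insert g A) B (C.erase g) := (hP.swap23.recut hdis hun).swap23
  have uC : u C ≤ u (C.erase g) + 1 := by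
    have := hus (C.erase g) g
    rwa [insert_erase hg] at this
  have vC : v C ≤ v (C.erase g) + 1 := by
    have := hvs (C.erase g) g
    rwa [insert_erase hg] at this
  have wA' : w (insert g A) = 1 := by
    have h1 := hw.mono A (insert g A) (subset_insert g A)
    have h2 := hw1 (insert g A)
    have h3 := hm.wA
    omega
  have uB' : Ok u (C.erase g) B := ok_of_le hu hP'.bc.symm (by omega)
  have vB' : Ok v (C.erase g) B := ok_of_le hv hP'.bc.symm (by omega)
  have hcard : (C.erase g).card < C.card := card_erase_lt_of_mem hg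
  -- what it means that the smaller third bundle is not enough
  have big : ∀ f : Finset M → ℕ, Nice f → f C ≤ f (C.erase g) + 1 →
      ¬ Ok f (C.erase g) (insert g A) →
      (∃ D E, Disjoint D E ∧ D ∪ E = A ∪ C ∧ f C ≤ f D ∧ f C ≤ f E) ∧ f C ≤ f (insert g A) ∧
        f (C.erase g) ≤ f (insert g A) := by
    intro f hf hstep hno
    have : ∃ D E, Disjoint D E ∧ D ∪ E = C.erase g ∪ insert g A ∧
        f (C.erase g) < min (f D) (f E) := by
      by_contra hcon
      push Not at hcon
      exact hno fun D E h1 h2 => hcon D E h1 h2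
    obtain ⟨D, E, hd, hu', hlt⟩ := this
    have h1 := hf.mms D E (C.erase g) (insert g A) hd hP'.ac.symm hu'
    refine ⟨⟨D, E, hd, by rw [hu', union_comm, hun], ?_, ?_⟩, ?_, ?_⟩ <;> omega
  by_cases b1 : Ok u (C.erase g) (insert g A)
  · by_cases b2 : Ok v (C.erase g) (insert g A)
    · have := hmin _ _ _ (⟨hP', wA', hm.wB, b1, uB', b2, vB'⟩ :
        Mid u v w (insert g A) B (C.erase g))
      omega
    · obtain ⟨-, c1, c2⟩ := big v hv vC b2
      exact ⟨C.erase g, insert g A, B, hP'.swap23.swap12, b1, uB',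
        ok_of_le hv hP'.ac c2, ok_of_le hv hP'.ab (by omega), ok_one hw1 hm.wB,
        ok_one hw1 hm.wB⟩
  · by_cases b2 : Ok v (C.erase g) (insert g A)
    · obtain ⟨-, c1, c2⟩ := big u hu uC b1
      exact ⟨insert g A, C.erase g, B, hP'.swap23, ok_of_le hu hP'.ac c2,
        ok_of_le hu hP'.ab (by omega), b2, vB', ok_one hw1 hm.wB, ok_one hw1 hm.wB⟩
    · obtain ⟨⟨D, E, hd, hun', hD, hE⟩, -, -⟩ := big u hu uC b1
      obtain ⟨⟨D', E', hd', hun'', hD', hE'⟩, -, -⟩ := big v hv vC b2
      have key : ∀ D E : Finset M, Disjoint D E → D ∪ E = A ∪ C → u C ≤ u E → v C ≤ v D →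
          Sol u v w := by
        intro D E hd hun hE hD
        have hPQ : Part D E B := hP.swap23.recut hd hun
        refine ⟨E, D, B, hPQ.swap12, ?_, ok_of_le hu hPQ.bc (by omega), ?_,
          ok_of_le hv hPQ.ac (by omega), ok_one hw1 hm.wB, ok_one hw1 hm.wB⟩
        · intro X Y hXY hXYu
          have := hu.mms X Y A C hXY hP.ac (by rw [hXYu, union_comm, hun])
          omega
        · intro X Y hXY hXYu
          have := hv.mms X Y A C hXY hP.ac (by rw [hXYu, hun])
          omega
      have h1 := hv.mms D' E' D E hd' hd (hun''.trans hun'.symm)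
      rcases le_total (v E) (v D) with h | h
      · exact key D E hd hun' hE (by omega)
      · exact key E D hd.symm (by rw [union_comm]; exact hun') hD (by omega)

/-- **The three-agent theorem** for natural-number valuations. -/
theorem sol {u v w : Finset M → ℕ} (hu : Nice u) (hv : Nice v) (hw : Nice w)
    (hus : Step u) (hvs : Step v) (hw1 : ∀ S, w S ≤ 1) : Sol u v w := by
  classical
  by_cases hws : WS w (univ : Finset M)
  · obtain ⟨A₀, B₀, hd₀, hu₀, hA₀, hB₀⟩ := hws
    have hne : ((univ : Finset (Finset M × Finset M × Finset M)).filter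
        fun t => Part t.1 t.2.1 t.2.2 ∧ w t.1 = 1 ∧ w t.2.1 = 1).Nonempty := by
      refine ⟨(A₀, B₀, ∅), ?_⟩
      rw [mem_filter]
      exact ⟨mem_univ _, ⟨hd₀, disjoint_empty_right _, disjoint_empty_right _, by
        rw [union_empty]; exact hu₀⟩, hA₀, hB₀⟩
    obtain ⟨⟨A, B, C⟩, ht, hmax⟩ := Finset.exists_max_image _
      (fun t : Finset M × Finset M × Finset M => u t.2.2) hne
    obtain ⟨hP, hA, hB⟩ := (mem_filter.1 ht).2
    simp only at hP hA hB hmax
    have hK : ∀ A' B' C', Part A' B' C' → w A' = 1 → w B' = 1 → u C' ≤ u C :=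
      fun A' B' C' h1 h2 h3 => hmax (A', B', C') (mem_filter.2 ⟨mem_univ _, h1, h2, h3⟩)
    by_cases hF : ∃ A' B' C' : Finset M, Part A' B' C' ∧ u C < u A' ∧ u C < u B'
    · exact sol_of_two hu hv hw hw1 hK hF
    · have hF' : ∀ A' B' C' : Finset M, Part A' B' C' → min (u A') (u B') ≤ u C := by
        intro A' B' C' h
        by_contra hcon
        exact hF ⟨A', B', C', h, by omega, by omega⟩
      have hPCAB : Part C A B := hP.swap23.swap12
      have hPCBA : Part C B A := hP.swap12.swap23.swap12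
      have uA : Ok u C A := fun D E hd hun => hF' D E B (hPCAB.recut hd hun)
      have uB : Ok u C B := fun D E hd hun => hF' D E A (hPCBA.recut hd hun)
      by_cases a1 : Ok v A B ∧ Ok v A C
      · exact ⟨C, A, B, hPCAB, uA, uB, a1.2, a1.1, ok_one hw1 hB, ok_one hw1 hB⟩
      by_cases a2 : Ok v B A ∧ Ok v B C
      · exact ⟨C, B, A, hPCBA, uB, uA, a2.2, a2.1, ok_one hw1 hA, ok_one hw1 hA⟩
      obtain ⟨fv1, fv2⟩ := fav hv hP a1 a2
      exact sol_of_mid hu hv hw hus hvs hw1 ⟨A, B, C, hP, hA, hB, uA, uB,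
        ok_of_le hv hP.ac.symm fv1.le, ok_of_le hv hP.bc.symm fv2.le⟩
  · exact sol_of_not_ws hu hv hw hw1 hws


lemma nat_of_binary {v : Finset M → ℝ} (h0 : v ∅ = 0) (hb : BinaryMarginal v) :
    ∀ S, ∃ n : ℕ, v S = n := by
  intro S
  induction S using Finset.induction_on with
  | empty => exact ⟨0, by rw [h0]; norm_num⟩
  | insert g S _ ih =>
    obtain ⟨n, hn⟩ := ih
    rcases hb S g with h | h
    · exact ⟨n, by linarith⟩
    · exact ⟨n + 1, by push_cast; linarith⟩

lemma exists_nat {v : Finset M → ℝ} (h0 : v ∅ = 0) (hb : BinaryMarginal v)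
    (hf : MMSFeasible v) :
    ∃ f : Finset M → ℕ, (∀ S, v S = f S) ∧ Nice f ∧ Step f := by
  choose f hfv using nat_of_binary h0 hb
  refine ⟨f, hfv, ⟨?_, ?_⟩, ?_⟩
  · intro S T hST
    have key : ∀ R : Finset M, f S ≤ f (S ∪ R) := by
      intro R
      induction R using Finset.induction_on with
      | empty => rw [union_empty]
      | insert g R _ ih =>
        rw [union_insert]
        have h := hb (S ∪ R) g
        rw [hfv, hfv] at h
        rcases h with h | h
        · have : (f (insert g (S ∪ R)) : ℝ) = f (S ∪ R) := by linarith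
          have : f (insert g (S ∪ R)) = f (S ∪ R) := by exact_mod_cast this
          omega
        · have : (f (insert g (S ∪ R)) : ℝ) = ((f (S ∪ R) + 1 : ℕ) : ℝ) := by
            push_cast; linarith
          have : f (insert g (S ∪ R)) = f (S ∪ R) + 1 := by exact_mod_cast this
          omega
    have := key T
    rwa [union_eq_right.2 hST] at this
  · intro A₁ A₂ B₁ B₂ hA hB hu
    have := hf A₁ A₂ B₁ B₂ hA hB hu
    rw [hfv, hfv, hfv, hfv] at this
    exact_mod_cast this
  · intro S g
    have h := hb S g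
    rw [hfv, hfv] at h
    rcases h with h | h
    · have : (f (insert g S) : ℝ) = f S := by linarith
      have : f (insert g S) = f S := by exact_mod_cast this
      omega
    · have : (f (insert g S) : ℝ) = ((f S + 1 : ℕ) : ℝ) := by push_cast; linarith
      have : f (insert g S) = f S + 1 := by exact_mod_cast this
      omega

lemma assemble (v : Fin 3 → Finset M → ℝ) {i j k : Fin 3} (hij : i ≠ j) (hik : i ≠ k)
    (hjk : j ≠ k) {A B C : Finset M} (hP : Part A B C)
    (h1 : ∀ D E, Disjoint D E → D ∪ E = A ∪ B → min (v i D) (v i E) ≤ v i A)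
    (h2 : ∀ D E, Disjoint D E → D ∪ E = A ∪ C → min (v i D) (v i E) ≤ v i A)
    (h3 : ∀ D E, Disjoint D E → D ∪ E = B ∪ A → min (v j D) (v j E) ≤ v j B)
    (h4 : ∀ D E, Disjoint D E → D ∪ E = B ∪ C → min (v j D) (v j E) ≤ v j B)
    (h5 : ∀ D E, Disjoint D E → D ∪ E = C ∪ A → min (v k D) (v k E) ≤ v k C)
    (h6 : ∀ D E, Disjoint D E → D ∪ E = C ∪ B → min (v k D) (v k E) ≤ v k C) :
    ∃ X : Fin 3 → Finset M, IsAllocation X ∧ IsPMMS v X := by
  have hall : ∀ m : Fin 3, m = i ∨ m = j ∨ m = k := by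
    intro m
    have := m.2; have := i.2; have := j.2; have := k.2
    simp only [Fin.ext_iff, ne_eq] at *
    omega
  let X : Fin 3 → Finset M := fun m => if m = i then A else if m = j then B else C
  have xi : X i = A := if_pos rfl
  have xj : X j = B := by simp [X, hij.symm]
  have xk : X k = C := by simp [X, hik.symm, hjk.symm]
  refine ⟨X, ⟨?_, ?_⟩, ?_⟩
  · intro m n hmn
    rcases hall m with h | h | h <;> rcases hall n with h' | h' | h'
    · exact absurd (h.trans h'.symm) hmn
    · rw [h, h', xi, xj]; exact hP.ab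
    · rw [h, h', xi, xk]; exact hP.ac
    · rw [h, h', xj, xi]; exact hP.ab.symm
    · exact absurd (h.trans h'.symm) hmn
    · rw [h, h', xj, xk]; exact hP.bc
    · rw [h, h', xk, xi]; exact hP.ac.symm
    · rw [h, h', xk, xj]; exact hP.bc.symm
    · exact absurd (h.trans h'.symm) hmn
  · intro g
    have : g ∈ A ∪ B ∪ C := hP.all ▸ mem_univ g
    rcases mem_union.1 this with h | h
    · rcases mem_union.1 h with h | h
      · exact ⟨i, by rw [xi]; exact h⟩
      · exact ⟨j, by rw [xj]; exact h⟩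
    · exact ⟨k, by rw [xk]; exact h⟩
  · intro m n hmn
    apply fairShare_le
    rcases hall m with h | h | h <;> rcases hall n with h' | h' | h'
    · exact absurd (h.trans h'.symm) hmn
    · rw [h, h', xi, xj]; exact h1
    · rw [h, h', xi, xk]; exact h2
    · rw [h, h', xj, xi]; exact h3
    · exact absurd (h.trans h'.symm) hmn
    · rw [h, h', xj, xk]; exact h4
    · rw [h, h', xk, xi]; exact h5
    · rw [h, h', xk, xj]; exact h6
    · exact absurd (h.trans h'.symm) hmn

/-- Three agents with binary-marginal MMS-feasible valuations. If the two-way fair share of the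
whole item set is at most `1` for one of them, there is a PMMS allocation of all items. -/
theorem result {M : Type*} [Fintype M] [DecidableEq M] (v : Fin 3 → Finset M → ℝ)
    (h0 : ∀ i, v i ∅ = 0)
    (hb : ∀ i, BinaryMarginal (v i))
    (hf : ∀ i, MMSFeasible (v i))
    (hs : ∃ k, fairShare (v k) univ ≤ 1) :
    ∃ X : Fin 3 → Finset M, IsAllocation X ∧ IsPMMS v X := by
  classical
  obtain ⟨k, hk⟩ := hs
  obtain ⟨i, j, hij, hik, hjk⟩ : ∃ i j : Fin 3, i ≠ j ∧ i ≠ k ∧ j ≠ k := by
    have : ∀ k : Fin 3, k + 1 ≠ k + 2 ∧ k + 1 ≠ k ∧ k + 2 ≠ k := by decide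
    exact ⟨k + 1, k + 2, this k⟩
  obtain ⟨f, hfv, hf1, hf2⟩ := exists_nat (h0 i) (hb i) (hf i)
  obtain ⟨g, hgv, hg1, hg2⟩ := exists_nat (h0 j) (hb j) (hf j)
  obtain ⟨e, hev, he1, he2⟩ := exists_nat (h0 k) (hb k) (hf k)
  have hw : Nice (fun S => min (e S) 1) := by
    refine ⟨fun S T hST => min_le_min_right 1 (he1.mono S T hST), ?_⟩
    intro A₁ A₂ B₁ B₂ hA hB hu
    have := he1.mms A₁ A₂ B₁ B₂ hA hB hu
    show min (min (e A₁) 1) (min (e A₂) 1) ≤ max (min (e B₁) 1) (min (e B₂) 1)
    omega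
  obtain ⟨A, B, C, hP, o1, o2, o3, o4, o5, o6⟩ := sol hf1 hg1 hw hf2 hg2
    (fun S => min_le_right _ _)
  have hone : ∀ D E, Disjoint D E → min (e D) (e E) ≤ 1 := by
    intro D E hd
    have h3 := le_fairShare (v k) (disjoint_sdiff (s := D) (t := univ))
      (union_sdiff_of_subset (subset_univ D))
    have h5 : min (v k D) (v k (univ \ D)) ≤ 1 := h3.trans hk
    rw [hev, hev] at h5
    have h6 : min (e D) (e (univ \ D)) ≤ 1 := by exact_mod_cast h5
    have h7 : e E ≤ e (univ \ D) := he1.mono _ _ fun x hx =>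
      mem_sdiff.2 ⟨mem_univ x, fun hxD => (Finset.disjoint_left.1 hd hxD) hx⟩
    omega
  refine assemble v hij hik hjk hP ?_ ?_ ?_ ?_ ?_ ?_
  · intro D E hd hu
    rw [hfv, hfv, hfv]
    exact_mod_cast o1 D E hd hu
  · intro D E hd hu
    rw [hfv, hfv, hfv]
    exact_mod_cast o2 D E hd hu
  · intro D E hd hu
    rw [hgv, hgv, hgv]
    exact_mod_cast o3 D E hd hu
  · intro D E hd hu
    rw [hgv, hgv, hgv]
    exact_mod_cast o4 D E hd hu
  · intro D E hd hu
    rw [hev, hev, hev]
    have h1 : min (min (e D) 1) (min (e E) 1) ≤ min (e C) 1 := o5 D E hd hu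
    have h2 := hone D E hd
    have : min (e D) (e E) ≤ e C := by omega
    exact_mod_cast this
  · intro D E hd hu
    rw [hev, hev, hev]
    have h1 : min (min (e D) 1) (min (e E) 1) ≤ min (e C) 1 := o6 D E hd hu
    have h2 := hone D E hd
    have : min (e D) (e E) ≤ e C := by omega
    exact_mod_cast this

end Pool.Agent.Results.MP_a38173_lc.ThreeAgentsOneSmallShare
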